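import Mathlib

set_option autoImplicit false

open Filter Topology

namespace Pool.Agent.TH329.RatL1

/-! ### Neumann series in `ℓ¹` -/

section Neumann

variable {P : Type*} {E : Type*} [NormedAddCommGroup E] [NormedSpace ℂ E] [CompleteSpace E]

omit [CompleteSpace E] in
lemma summable_smul {θ : ℝ} (e : P → E) (he : ∀ q, ‖e q‖ ≤ θ) (f : P → ℂ)
    (hf : Summable fun q => ‖f q‖) : Summable fun q => ‖f q • e q‖ := by
  refine Summable.of_nonneg_of_le (fun q => norm_nonneg _) (fun q => ?_) (hf.mul_right θ)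
  rw [norm_smul]
  exact mul_le_mul_of_nonneg_left (he q) (norm_nonneg _)

lemma lp1_summable (f : lp (fun _ : P => ℂ) 1) : Summable fun q => ‖f q‖ := by
  have h := lp.hasSum_norm (p := 1) (by simp) f
  simpa using h.summable

lemma lp1_norm (f : lp (fun _ : P => ℂ) 1) : ‖f‖ = ∑' q, ‖f q‖ := by
  have h := lp.hasSum_norm (p := 1) (by simp) f
  simpa using h.tsum_eq.symm

lemma exists_synth {θ : ℝ} (hθ : 0 ≤ θ) (e : P → E) (he : ∀ q, ‖e q‖ ≤ θ) :
    ∃ T : lp (fun _ : P => ℂ) 1 →L[ℂ] E, ‖T‖ ≤ θ ∧ ∀ f, T f = ∑' q, f q • e q := by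
  have hs : ∀ f : lp (fun _ : P => ℂ) 1, Summable fun q => f q • e q := fun f =>
    (summable_smul e he f (lp1_summable f)).of_norm
  let L : lp (fun _ : P => ℂ) 1 →ₗ[ℂ] E :=
    { toFun := fun f => ∑' q, f q • e q
      map_add' := by
        intro f g
        rw [← (hs f).tsum_add (hs g)]
        refine tsum_congr fun q => ?_
        rw [lp.coeFn_add, Pi.add_apply, add_smul]
      map_smul' := by
        intro c f
        simp only [RingHom.id_apply]
        rw [← (hs f).tsum_const_smul c]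
        refine tsum_congr fun q => ?_
        rw [lp.coeFn_smul, Pi.smul_apply, smul_assoc] }
  have hL : ∀ f, ‖L f‖ ≤ θ * ‖f‖ := by
    intro f
    have h1 : ‖∑' q, f q • e q‖ ≤ ∑' q, ‖f q • e q‖ :=
      norm_tsum_le_tsum_norm (summable_smul e he f (lp1_summable f))
    have h2 : ∑' q, ‖f q • e q‖ ≤ ∑' q, ‖f q‖ * θ := by
      refine (summable_smul e he f (lp1_summable f)).tsum_le_tsum (fun q => ?_)
        ((lp1_summable f).mul_right θ)
      rw [norm_smul]
      exact mul_le_mul_of_nonneg_left (he q) (norm_nonneg _)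
    rw [tsum_mul_right, ← lp1_norm f] at h2
    calc ‖L f‖ = ‖∑' q, f q • e q‖ := rfl
      _ ≤ θ * ‖f‖ := by rw [mul_comm]; exact h1.trans h2
  refine ⟨L.mkContinuous θ hL, L.mkContinuous_norm_le hθ hL, fun f => rfl⟩

open Classical in
/-- Neumann series for a kernel whose columns have `ℓ¹` norm at most `θ < 1`. -/
theorem neumann {ι : Type*} (loc : P → ι → P) (c : P → ι → ℝ) {θ : ℝ} (hθ : θ < 1)
    (hc : ∀ q, Summable fun i => |c q i|) (hc' : ∀ q, ∑' i, |c q i| ≤ θ)
    (x : P → ℂ) (hx : Summable fun q => ‖x q‖) :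
    ∃ y : P → ℂ, (Summable fun q => ‖y q‖) ∧
      ∀ t, y t + ∑' q, y q * ∑' i, (c q i : ℂ) * (if loc q i = t then 1 else 0) = x t := by
  rcases isEmpty_or_nonempty P with hP | ⟨⟨q0⟩⟩
  · exact ⟨x, hx, fun t => (hP.false t).elim⟩
  have hθ0 : 0 ≤ θ := (tsum_nonneg fun i => abs_nonneg _).trans (hc' q0)
  have hsum : ∀ q, Summable fun i => ‖(c q i : ℂ) • lp.single (E := fun _ : P => ℂ) 1 (loc q i) (1 : ℂ)‖ := by
    intro q
    refine (hc q).congr fun i => ?_
    rw [norm_smul, lp.norm_single (by simp)]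
    simp
  set e : P → lp (fun _ : P => ℂ) 1 := fun q => ∑' i, (c q i : ℂ) • lp.single (E := fun _ : P => ℂ) 1 (loc q i) (1 : ℂ) with he_def
  have he : ∀ q, ‖e q‖ ≤ θ := by
    intro q
    refine (norm_tsum_le_tsum_norm (hsum q)).trans ((le_of_eq ?_).trans (hc' q))
    refine tsum_congr fun i => ?_
    rw [norm_smul, lp.norm_single (by simp)]
    simp
  obtain ⟨T, hT, hTf⟩ := exists_synth hθ0 e he
  have hTlt : ‖-T‖ < 1 := by rw [norm_neg]; exact lt_of_le_of_lt hT hθ
  let u := Units.oneSub (-T) hTlt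
  have hxm : Memℓp x 1 := memℓp_gen (by simpa using hx)
  let X : lp (fun _ : P => ℂ) 1 := ⟨x, hxm⟩
  let y : lp (fun _ : P => ℂ) 1 := (↑u⁻¹ : lp (fun _ : P => ℂ) 1 →L[ℂ] lp (fun _ : P => ℂ) 1) X
  have hy : y + T y = X := by
    have h1 : (u : lp (fun _ : P => ℂ) 1 →L[ℂ] lp (fun _ : P => ℂ) 1) y = X := by
      show ((u : lp (fun _ : P => ℂ) 1 →L[ℂ] lp (fun _ : P => ℂ) 1) * ↑u⁻¹) X = X
      rw [Units.mul_inv]; rfl
    have h2 : (u : lp (fun _ : P => ℂ) 1 →L[ℂ] lp (fun _ : P => ℂ) 1) = 1 + T := by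
      show 1 - (-T) = 1 + T
      rw [sub_neg_eq_add]
    rw [h2] at h1
    exact h1
  refine ⟨y, lp1_summable y, fun t => ?_⟩
  have h3 : y t + (T y) t = x t := by
    have := congrArg (fun z : lp (fun _ : P => ℂ) 1 => z t) hy
    simpa [lp.coeFn_add] using this
  rw [← h3]
  congr 1
  rw [hTf]
  have hs : Summable fun q => y q • e q :=
    (summable_smul e he y (lp1_summable y)).of_norm
  have h4 : (∑' q, y q • e q : lp (fun _ : P => ℂ) 1) t = ∑' q, (y q • e q : lp (fun _ : P => ℂ) 1) t := by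
    have := (lp.evalCLM ℂ (fun _ : P => ℂ) 1 t).map_tsum hs
    exact this
  rw [h4]
  refine tsum_congr fun q => ?_
  rw [lp.coeFn_smul, Pi.smul_apply, smul_eq_mul]
  congr 1
  have h5 : (e q) t = ∑' i, ((c q i : ℂ) • lp.single (E := fun _ : P => ℂ) 1 (loc q i) (1 : ℂ) : lp (fun _ : P => ℂ) 1) t := by
    have := (lp.evalCLM ℂ (fun _ : P => ℂ) 1 t).map_tsum (hsum q).of_norm
    exact this
  rw [h5]
  refine tsum_congr fun i => ?_
  rw [lp.coeFn_smul, Pi.smul_apply, smul_eq_mul]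
  congr 1
  by_cases h : loc q i = t
  · subst h; simp
  · rw [lp.single_apply_ne _ _ _ (Ne.symm h), if_neg h]

end Neumann

open Classical in
/-- Weighted version of the Neumann series. -/
theorem neumannW {P ι : Type*} (W : P → ℝ) (hW : ∀ q, 0 < W q) (loc : P → ι → P)
    (k : P → ι → ℝ) (hk0 : ∀ q i, 0 ≤ k q i) {θ : ℝ} (hθ : θ < 1)
    (hk : ∀ q, Summable fun i => k q i * W (loc q i))
    (hk' : ∀ q, ∑' i, k q i * W (loc q i) ≤ θ * W q)
    (a : P → ℂ) (ha : Summable fun q => ‖a q‖ * W q) :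
    ∃ a' : P → ℂ, (Summable fun q => ‖a' q‖ * W q) ∧
      ∀ t, a' t + ∑' q, a' q * ∑' i, (k q i : ℂ) * (if loc q i = t then 1 else 0) = a t := by
  have habs : ∀ q i, |k q i * W (loc q i) / W q| = (k q i * W (loc q i)) * (W q)⁻¹ := by
    intro q i
    rw [abs_of_nonneg (div_nonneg (mul_nonneg (hk0 q i) (hW _).le) (hW q).le), div_eq_mul_inv]
  obtain ⟨y, hy, hyt⟩ := neumann loc (fun q i => k q i * W (loc q i) / W q) hθ
    (fun q => by simp only [habs]; exact (hk q).mul_right _)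
    (fun q => by
      simp only [habs]
      rw [tsum_mul_right]
      have := hk' q
      have h2 := hW q
      rw [← div_eq_mul_inv, div_le_iff₀ h2]
      exact this)
    (fun q => a q * (W q : ℂ))
    (by
      refine ha.congr fun q => ?_
      rw [norm_mul, Complex.norm_real, Real.norm_of_nonneg (hW q).le])
  have hWc : ∀ q, (W q : ℂ) ≠ 0 := fun q => by exact_mod_cast (hW q).ne'
  refine ⟨fun q => y q / (W q : ℂ), ?_, fun t => ?_⟩
  · refine hy.congr fun q => ?_
    rw [norm_div, Complex.norm_real, Real.norm_of_nonneg (hW q).le, div_mul_cancel₀ _ (hW q).ne']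
  · have h := hyt t
    have h1 : ∀ q, ∑' i, ((k q i * W (loc q i) / W q : ℝ) : ℂ) * (if loc q i = t then 1 else 0)
        = ((W t : ℂ) / W q) * ∑' i, (k q i : ℂ) * (if loc q i = t then 1 else 0) := by
      intro q
      rw [← tsum_mul_left]
      refine tsum_congr fun i => ?_
      by_cases hl : loc q i = t
      · rw [if_pos hl, hl]; push_cast; ring
      · rw [if_neg hl]; simp
    simp only [h1] at h
    have h2 : ∑' q, y q * (((W t : ℂ) / W q) * ∑' i, (k q i : ℂ) * (if loc q i = t then 1 else 0))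
        = (W t : ℂ) * ∑' q, y q / (W q : ℂ) * ∑' i, (k q i : ℂ) * (if loc q i = t then 1 else 0) := by
      rw [← tsum_mul_left]
      refine tsum_congr fun q => ?_
      ring
    rw [h2] at h
    have h3 := hWc t
    have h4 : (W t : ℂ) * (y t / (W t : ℂ) + ∑' q, y q / (W q : ℂ) *
        ∑' i, (k q i : ℂ) * (if loc q i = t then 1 else 0)) = (W t : ℂ) * a t := by
      rw [mul_add, mul_div_cancel₀ _ h3, h, mul_comm]
    exact mul_left_cancel₀ h3 h4

/-! ### Push-forward of a summable family -/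

open Classical in
lemma push_summable {ι : Type*} (g : ι → ℂ) (p : ι → ℚ) (w : ℚ → ℝ) (hw : ∀ r, 0 < w r)
    (hg : Summable fun i => ‖g i‖ * w (p i)) :
    Summable fun r : ℚ => ‖∑' i, (if p i = r then g i else 0)‖ * w r := by
  have h1 : Summable fun x : (Σ r : ℚ, {i // p i = r}) => ‖g x.2‖ * w (p x.2) :=
    ((Equiv.sigmaFiberEquiv p).summable_iff (f := fun i => ‖g i‖ * w (p i))).2 hg
  refine Summable.of_nonneg_of_le (fun r => mul_nonneg (norm_nonneg _) (hw r).le) (fun r => ?_)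
    h1.sigma
  have h2 : Summable fun c : {i // p i = r} => ‖g c‖ * w (p c) := h1.sigma_factor r
  have h3 : Summable fun c : {i // p i = r} => ‖g c‖ := by
    refine (h2.mul_right (w r)⁻¹).congr fun c => ?_
    rw [c.2, mul_assoc, mul_inv_cancel₀ (hw r).ne', mul_one]
  have h4 : ∑' i, (if p i = r then g i else 0) = ∑' c : {i // p i = r}, g c := by
    refine Eq.trans ?_ (tsum_subtype {i | p i = r} g).symm
    refine tsum_congr fun i => ?_
    simp [Set.indicator]
  rw [h4]
  calc ‖∑' c : {i // p i = r}, g c‖ * w r ≤ (∑' c : {i // p i = r}, ‖g c‖) * w r :=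
        mul_le_mul_of_nonneg_right (norm_tsum_le_tsum_norm h3) (hw r).le
    _ = ∑' c : {i // p i = r}, ‖g c‖ * w (p c) := by
        rw [← tsum_mul_right]
        refine tsum_congr fun c => ?_
        rw [c.2]

end Pool.Agent.TH329.RatL1
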