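import Pool.Agent.TH329.RatL1B

set_option autoImplicit false

open Filter Topology

namespace Pool.Agent.TH329.RatL1

/-- the weights `1` (`lam = 0`) and `exp (-t²)` (`lam = 1`) -/
noncomputable def wt (lam : ℝ) (t : ℚ) : ℝ := Real.exp (-(lam * (t : ℝ) ^ 2))

lemma wt_pos (lam : ℝ) (t : ℚ) : 0 < wt lam t := Real.exp_pos _

lemma wt_sub {lam : ℝ} (hl : 0 ≤ lam) (x y : ℚ) (hx : 0 < x) (hy : 0 < y) :
    wt lam (x + y) ≤ wt lam x * wt lam y := by
  unfold wt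
  rw [← Real.exp_add]
  apply Real.exp_le_exp.2
  push_cast
  have hx' : (0 : ℝ) < x := by exact_mod_cast hx
  have hy' : (0 : ℝ) < y := by exact_mod_cast hy
  nlinarith [mul_nonneg hl (mul_nonneg hx'.le hy'.le)]

lemma wt_anti {lam : ℝ} (hl : 0 ≤ lam) {x y : ℚ} (hx : 0 ≤ x) (hxy : x ≤ y) :
    wt lam y ≤ wt lam x := by
  unfold wt
  apply Real.exp_le_exp.2
  have hx' : (0 : ℝ) ≤ x := by exact_mod_cast hx
  have hy' : (x : ℝ) ≤ y := by exact_mod_cast hxy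
  have : (x : ℝ) ^ 2 ≤ (y : ℝ) ^ 2 := by nlinarith
  nlinarith [mul_le_mul_of_nonneg_left this hl]

lemma wt_le_one {lam : ℝ} (hl : 0 ≤ lam) (x : ℚ) : wt lam x ≤ 1 := by
  unfold wt
  rw [← Real.exp_zero]
  apply Real.exp_le_exp.2
  nlinarith [mul_nonneg hl (sq_nonneg (x : ℝ))]

/-- `q` is in the window of `τ` -/
def Win (lam : ℝ) (τ : ℚ) (q : Pos) : Prop := τ < (q : ℚ) ∧ lam * (q : ℚ) * τ < 1

lemma Win.mono {lam : ℝ} (hl : 0 ≤ lam) {τ τ' : ℚ} (hτ : τ' ≤ τ) {q : Pos} (h : Win lam τ q) :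
    Win lam τ' q := by
  refine ⟨lt_of_le_of_lt hτ h.1, lt_of_le_of_lt ?_ h.2⟩
  have hq : (0 : ℝ) < ((q : ℚ) : ℝ) := by exact_mod_cast q.2
  have h' : (τ' : ℝ) ≤ τ := by exact_mod_cast hτ
  exact mul_le_mul_of_nonneg_left h' (mul_nonneg hl hq.le)

lemma exists_win {lam : ℝ} (hl : 0 ≤ lam) (hl1 : lam ≤ 1) (q : Pos) :
    ∃ τ : ℚ, 0 < τ ∧ Win lam τ q := by
  have hq : (0 : ℚ) < q := q.2
  have h2 : (0 : ℚ) < 2 * q + 2 := by linarith
  refine ⟨min ((q : ℚ) / 2) (1 / (2 * q + 2)), lt_min (by linarith) (by positivity), ?_, ?_⟩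
  · exact lt_of_le_of_lt (min_le_left _ _) (by linarith)
  · have h3 : (min ((q : ℚ) / 2) (1 / (2 * q + 2)) : ℚ) ≤ 1 / (2 * q + 2) := min_le_right _ _
    have h3' : ((min ((q : ℚ) / 2) (1 / (2 * q + 2)) : ℚ) : ℝ) ≤ 1 / (2 * (q : ℚ) + 2) := by
      have := (Rat.cast_le (K := ℝ)).2 h3
      push_cast at this ⊢
      exact this
    have hqr : (0 : ℝ) < ((q : ℚ) : ℝ) := by exact_mod_cast hq
    calc lam * ((q : ℚ) : ℝ) * ((min ((q : ℚ) / 2) (1 / (2 * q + 2)) : ℚ) : ℝ)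
        ≤ lam * ((q : ℚ) : ℝ) * (1 / (2 * (q : ℚ) + 2)) :=
          mul_le_mul_of_nonneg_left h3' (mul_nonneg hl hqr.le)
      _ ≤ 1 * ((q : ℚ) : ℝ) * (1 / (2 * (q : ℚ) + 2)) := by
          have : (0 : ℝ) ≤ 1 / (2 * ((q : ℚ) : ℝ) + 2) := by positivity
          exact mul_le_mul_of_nonneg_right (mul_le_mul_of_nonneg_right hl1 hqr.le) this
      _ < 1 := by
          rw [one_mul, mul_one_div, div_lt_one (by positivity)]
          linarith

lemma exists_tail {lam : ℝ} (hl : 0 ≤ lam) (hl1 : lam ≤ 1) {D : Pos → ℝ} (hD : Summable D)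
    (ε : ℝ) (hε : 0 < ε) :
    ∃ τ0 : ℚ, 0 < τ0 ∧ ∀ τ : ℚ, τ ≤ τ0 → ∀ T : Finset Pos,
      (∀ q ∈ T, ¬ Win lam τ q) → ∑ q ∈ T, D q ≤ ε := by
  classical
  obtain ⟨S, hS⟩ := summable_iff_vanishing_norm.1 hD ε hε
  have h1 : ∀ S : Finset Pos, ∃ τ0 : ℚ, 0 < τ0 ∧ ∀ q ∈ S, Win lam τ0 q := by
    intro S
    induction S using Finset.induction_on with
    | empty => exact ⟨1, one_pos, by simp⟩
    | insert a S _ ih =>
      obtain ⟨τ1, h1, h2⟩ := ih
      obtain ⟨τ2, h3, h4⟩ := exists_win hl hl1 a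
      refine ⟨min τ1 τ2, lt_min h1 h3, fun q hq => ?_⟩
      rcases Finset.mem_insert.1 hq with rfl | hq
      · exact h4.mono hl (min_le_right _ _)
      · exact (h2 q hq).mono hl (min_le_left _ _)
  obtain ⟨τ0, h0, h2⟩ := h1 S
  refine ⟨τ0, h0, fun τ hτ T hT => ?_⟩
  have hdis : Disjoint T S := by
    rw [Finset.disjoint_left]
    intro q hq hqS
    exact hT q hq ((h2 q hqS).mono hl hτ)
  have := hS T hdis
  exact (le_abs_self _).trans (le_of_lt (by simpa [Real.norm_eq_abs] using this))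

lemma exists_tau {lam : ℝ} (hl : 0 ≤ lam) (hl1 : lam ≤ 1) {D : Pos → ℝ} (hD : Summable D) :
    ∃ τ : ℕ → ℚ, (∀ k, 0 < τ k) ∧ τ 0 ≤ 1 / 8 ∧ (∀ k, τ (k + 1) ≤ τ k / 4) ∧
      ∀ k, ∀ T : Finset Pos, (∀ q ∈ T, ¬ Win lam (τ k) q) → ∑ q ∈ T, D q ≤ (1 / 4) ^ (k + 1) := by
  have h := fun k : ℕ => exists_tail hl hl1 hD ((1 / 4) ^ (k + 1)) (by positivity)
  choose f hf0 hf using h
  let τ : ℕ → ℚ := fun k => Nat.rec (min (1 / 8) (f 0)) (fun k t => min (t / 4) (f (k + 1))) k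
  have e0 : τ 0 = min (1 / 8) (f 0) := rfl
  have e1 : ∀ k, τ (k + 1) = min (τ k / 4) (f (k + 1)) := fun k => rfl
  have hpos : ∀ k, 0 < τ k := by
    intro k
    induction k with
    | zero => rw [e0]; exact lt_min (by norm_num) (hf0 0)
    | succ k ih => rw [e1]; exact lt_min (by linarith) (hf0 _)
  refine ⟨τ, hpos, ?_, fun k => ?_, fun k T hT => ?_⟩
  · rw [e0]; exact min_le_left _ _
  · rw [e1]; exact min_le_left _ _
  · refine hf k (τ k) ?_ T hT
    cases k with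
    | zero => rw [e0]; exact min_le_right _ _
    | succ k => rw [e1]; exact min_le_right _ _

section Scales

variable {lam : ℝ} {τ : ℕ → ℚ}

lemma tau_add (h1 : ∀ k, τ (k + 1) ≤ τ k / 4) (m n : ℕ) : τ (m + n) ≤ τ m * (1 / 4) ^ n := by
  induction n with
  | zero => simp
  | succ n ih =>
    have := h1 (m + n)
    rw [show m + (n + 1) = m + n + 1 by ring, pow_succ]
    linarith

lemma tau_anti (h0 : ∀ k, 0 < τ k) (h1 : ∀ k, τ (k + 1) ≤ τ k / 4) {m n : ℕ} (h : m ≤ n) :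
    τ n ≤ τ m := by
  obtain ⟨i, rfl⟩ := Nat.exists_eq_add_of_le h
  refine (tau_add h1 m i).trans ?_
  have : (1 / 4 : ℚ) ^ i ≤ 1 := pow_le_one₀ (by norm_num) (by norm_num)
  have h2 := h0 m
  nlinarith

lemma exists_level (hl : 0 ≤ lam) (hl1 : lam ≤ 1) (h0 : ∀ k, 0 < τ k)
    (h1 : ∀ k, τ (k + 1) ≤ τ k / 4) (q : Pos) : ∃ k, Win lam (τ k) q := by
  obtain ⟨τ0, hτ0, hw⟩ := exists_win hl hl1 q
  have hpos : 0 < τ0 / τ 0 := div_pos hτ0 (h0 0)
  obtain ⟨n, hn⟩ := exists_pow_lt_of_lt_one hpos (by norm_num : (1 / 4 : ℚ) < 1)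
  refine ⟨n, hw.mono hl ?_⟩
  have h2 := tau_add h1 0 n
  rw [zero_add] at h2
  rw [lt_div_iff₀ (h0 0)] at hn
  linarith

end Scales

lemma pow_two_eq_sum (k : ℕ) : (2 : ℝ) ^ k = 1 + ∑ m ∈ Finset.range k, (2 : ℝ) ^ m := by
  induction k with
  | zero => simp
  | succ k ih => rw [Finset.sum_range_succ, pow_succ]; linarith

open Classical in
lemma summable_level {lam : ℝ} {D : Pos → ℝ} (hD : Summable D) (hD0 : ∀ q, 0 ≤ D q)
    {τ : ℕ → ℚ}
    (hT : ∀ k, ∀ T : Finset Pos, (∀ q ∈ T, ¬ Win lam (τ k) q) → ∑ q ∈ T, D q ≤ (1 / 4) ^ (k + 1))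
    (k : Pos → ℕ) (hk : ∀ q, ∀ m < k q, ¬ Win lam (τ m) q) :
    Summable fun q => (2 : ℝ) ^ (k q) * D q := by
  refine summable_of_sum_le (c := ∑' q, D q + 1) (fun q => mul_nonneg (by positivity) (hD0 q)) ?_
  intro T
  obtain ⟨N, hN⟩ : ∃ N, ∀ q ∈ T, k q ≤ N := ⟨T.sup k, fun q hq => Finset.le_sup hq⟩
  have h1 : ∀ q ∈ T, (2 : ℝ) ^ (k q) * D q ≤
      D q + ∑ m ∈ Finset.range N, (if Win lam (τ m) q then 0 else (2 : ℝ) ^ m * D q) := by
    intro q hq
    rw [pow_two_eq_sum, add_mul, one_mul, Finset.sum_mul]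
    refine add_le_add le_rfl ?_
    have h2 : ∑ m ∈ Finset.range (k q), (2 : ℝ) ^ m * D q =
        ∑ m ∈ Finset.range (k q), (if Win lam (τ m) q then 0 else (2 : ℝ) ^ m * D q) := by
      refine Finset.sum_congr rfl fun m hm => ?_
      rw [if_neg (hk q m (Finset.mem_range.1 hm))]
    rw [h2]
    refine Finset.sum_le_sum_of_subset_of_nonneg (Finset.range_mono (hN q hq)) ?_
    intro m _ _
    split_ifs
    · exact le_rfl
    · exact mul_nonneg (by positivity) (hD0 q)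
  refine (Finset.sum_le_sum h1).trans ?_
  rw [Finset.sum_add_distrib]
  refine add_le_add (hD.sum_le_tsum _ (fun q _ => hD0 q)) ?_
  rw [Finset.sum_comm]
  have h3 : ∀ m ∈ Finset.range N, ∑ q ∈ T, (if Win lam (τ m) q then 0 else (2 : ℝ) ^ m * D q) ≤
      (1 / 2) * (1 / 2) ^ (m + 1) := by
    intro m _
    have h4 : ∑ q ∈ T, (if Win lam (τ m) q then 0 else (2 : ℝ) ^ m * D q) =
        (2 : ℝ) ^ m * ∑ q ∈ T.filter (fun q => ¬ Win lam (τ m) q), D q := by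
      rw [Finset.mul_sum, Finset.sum_filter]
      refine Finset.sum_congr rfl fun q _ => ?_
      by_cases h : Win lam (τ m) q <;> simp [h]
    rw [h4]
    have h5 := hT m (T.filter (fun q => ¬ Win lam (τ m) q)) (fun q hq => (Finset.mem_filter.1 hq).2)
    calc (2 : ℝ) ^ m * ∑ q ∈ T.filter (fun q => ¬ Win lam (τ m) q), D q
        ≤ (2 : ℝ) ^ m * (1 / 4) ^ (m + 1) := mul_le_mul_of_nonneg_left h5 (by positivity)
      _ = (1 / 2) * (1 / 2) ^ (m + 1) := by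
          rw [pow_succ, pow_succ, show (1 / 4 : ℝ) = (1 / 2) * (1 / 2) by norm_num, mul_pow]
          have : (2 : ℝ) ^ m * (1 / 2) ^ m = 1 := by rw [← mul_pow]; norm_num
          linear_combination ((1 / 2 : ℝ) ^ m * (1 / 4)) * this
  refine (Finset.sum_le_sum h3).trans ?_
  rw [← Finset.mul_sum]
  have h6 : ∀ N : ℕ, ∑ m ∈ Finset.range N, (1 / 2 : ℝ) ^ (m + 1) ≤ 1 := by
    intro N
    have : ∑ m ∈ Finset.range N, (1 / 2 : ℝ) ^ (m + 1) = 1 - (1 / 2) ^ N := by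
      induction N with
      | zero => simp
      | succ N ih => rw [Finset.sum_range_succ, ih, pow_succ]; ring
    rw [this]
    have : (0 : ℝ) ≤ (1 / 2) ^ N := by positivity
    linarith
  linarith [h6 N]

/-- two-sided geometric sum -/
lemma geo_range (j n : ℕ) :
    ∑ m ∈ Finset.range n, (if m = j then (0 : ℝ) else (1 / 16) ^ ((m - j) + (j - m))) ≤ 2 / 15 := by
  have key : ∑ m ∈ Finset.range n, (if m = j then (0 : ℝ) else (1 / 16) ^ ((m - j) + (j - m))) ≤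
      if n ≤ j then (1 / 15) * (1 / 16) ^ (j - n) else 2 / 15 - (1 / 15) * (1 / 16) ^ (n - 1 - j) := by
    induction n with
    | zero => simp
    | succ n ih =>
      rw [Finset.sum_range_succ]
      rcases lt_trichotomy n j with h | h | h
      · rw [if_pos h.le] at ih
        rw [if_neg h.ne, if_pos (Nat.succ_le_of_lt h)]
        have e1 : n - j + (j - n) = (j - (n + 1)) + 1 := by omega
        have e2 : j - n = (j - (n + 1)) + 1 := by omega
        rw [e1]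
        rw [e2] at ih
        rw [pow_succ] at ih ⊢
        linarith
      · subst h
        rw [if_pos le_rfl] at ih
        rw [if_pos rfl, if_neg (by omega)]
        simp only [Nat.sub_self, pow_zero, Nat.add_sub_cancel] at ih ⊢
        linarith
      · rw [if_neg (by omega)] at ih
        rw [if_neg h.ne', if_neg (by omega)]
        have e1 : n - j + (j - n) = (n - 1 - j) + 1 := by omega
        have e2 : n + 1 - 1 - j = (n - 1 - j) + 1 := by omega
        rw [e1, e2]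
        rw [pow_succ]
        linarith
  refine key.trans ?_
  split_ifs with h
  · have : (1 / 16 : ℝ) ^ (j - n) ≤ 1 := pow_le_one₀ (by norm_num) (by norm_num)
    linarith
  · have : (0 : ℝ) ≤ (1 / 16) ^ (n - 1 - j) := by positivity
    linarith

end Pool.Agent.TH329.RatL1
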